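import Pool.Agent.Q209.PS.Big

/-!
# MP_f3871b: signs in the power product expansion of the partition function

For every `k ≥ 1`: `n(8k+2) < 0`, `n(8k+4) < 0`, `n(8k+6) < 0`, `n(8k) > 0`.

Write `a_n = n(2n)`. The logarithmic derivative of the expansion gives the recursion
`∑_{d | n} (-1)^{n/d-1} d a_d^{n/d} = ∑_{d | n} d (1 + [d odd])`. The divisors `d = 1, 2`, for which
`a_1 = 2`, `a_2 = 4`, contribute `c 2^n` to `n a_n`, with `c = 3` if `4 | n` and `c = -1` otherwise;
all other divisors contribute less than `(3/4) 2^n` for `n > 700`. For `n ≤ 700` the values are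
checked.
-/

namespace Pool.Agent.Results.MP_f3871b_nt.FullAnswer

open Finset PowerSeries Pool.Agent.Q209.PS

/-- The coefficients of the power product expansion. -/
noncomputable def Nx (m : ℕ) : ℤ :=
  (Fintype.card m.Partition : ℤ) -
    coeff m (∏ k ∈ (Icc 1 (m - 1)).attach,
      (1 + PowerSeries.C (Nx k.1) * (X : PowerSeries ℤ) ^ (k.1 : ℕ)))
termination_by m
decreasing_by
  have := mem_Icc.1 k.2
  omega

theorem isExpansion_Nx : IsExpansion Nx := by
  intro M
  induction M with
  | zero =>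
    intro m hm
    have hm0 : m = 0 := by omega
    subst hm0
    simp
  | succ M ih =>
    intro m hm
    rw [Finset.prod_Icc_succ_top (by omega), mul_add, mul_one, map_add, mul_left_comm,
      coeff_C_mul, coeff_mul_X_pow']
    rcases Nat.lt_or_ge m (M + 1) with h | h
    · rw [if_neg (by omega), mul_zero, add_zero]
      exact ih m (by omega)
    · have hm1 : m = M + 1 := by omega
      subst hm1
      have h0 := ih 0 (by omega)
      have h1 : (Fintype.card (Nat.Partition 0) : ℤ) = 1 := by simp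
      rw [if_pos le_rfl, Nat.sub_self, h0, h1, mul_one, Nx,
        Finset.prod_attach (Icc 1 (M + 1 - 1))
          (fun k => 1 + PowerSeries.C (Nx k) * (X : PowerSeries ℤ) ^ k), Nat.add_sub_cancel]
      ring

theorem bound {a : ℕ → ℤ} (h : Recur a) (n : ℕ) (hn : 1 ≤ n) :
    2 * n * (a n).natAbs ≤ 27 * 2 ^ n := by
  have hF := (chk_spec a h 700 tab chk_tab).2
  induction n using Nat.strong_induction_on with
  | _ n ih =>
    rcases Nat.lt_or_ge 700 n with h1 | h1
    · have h2 := big a h n h1 (fun d h3 h4 => (hF d (by omega) (by omega)).2.2.2.2 h3 h4)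
        (fun d h3 h4 => ih d h4 h3)
      have h3 : |cst n * 2 ^ n| ≤ 3 * 2 ^ n := by
        rw [abs_mul, abs_of_pos (by positivity : (0 : ℝ) < 2 ^ n)]
        gcongr
        unfold cst
        split_ifs <;> norm_num
      have h4 : |(n : ℝ) * (a n : ℝ)| ≤ (3 + 3 / 4) * 2 ^ n := by
        have h5 : (n : ℝ) * (a n : ℝ) = ((n : ℝ) * (a n : ℝ) - cst n * 2 ^ n) + cst n * 2 ^ n := by
          ring
        rw [h5]
        refine (abs_add_le _ _).trans ?_
        linarith
      have h5 : (2 : ℝ) * n * ((a n).natAbs : ℝ) ≤ 27 * 2 ^ n := by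
        have h6 : |(n : ℝ) * (a n : ℝ)| = n * ((a n).natAbs : ℝ) := by
          rw [abs_mul, Nat.abs_cast, Nat.cast_natAbs, Int.cast_abs]
        rw [h6] at h4
        have h7 : (0 : ℝ) < 2 ^ n := by positivity
        nlinarith
      exact_mod_cast h5
    · exact (hF n hn h1).2.2.2.1

theorem sign_pos {a : ℕ → ℤ} (h : Recur a) (n : ℕ) (hn : 4 ≤ n) (h4 : 4 ∣ n) : 0 < a n := by
  have hF := (chk_spec a h 700 tab chk_tab).2
  rcases Nat.lt_or_ge 700 n with h1 | h1
  · have h2 := big a h n h1 (fun d h3 h4 => (hF d (by omega) (by omega)).2.2.2.2 h3 h4)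
      (fun d h3 _ => bound h d h3)
    have hc : cst n = 3 := if_pos h4
    rw [hc, abs_le] at h2
    have h7 : (0 : ℝ) < 2 ^ n := by positivity
    have h8 : (0 : ℝ) < n * (a n : ℝ) := by linarith [h2.1]
    have h9 : (0 : ℝ) < (a n : ℝ) := pos_of_mul_pos_right h8 (by positivity)
    exact_mod_cast h9
  · obtain ⟨h2, -, h3, -⟩ := hF n (by omega) h1
    have hs : sg n = true := by
      unfold sg
      rw [Bool.or_eq_true]
      right
      rw [beq_iff]
      omega
    have h5 := h2 hs
    have h6 := h3 hn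
    omega

theorem sign_neg {a : ℕ → ℤ} (h : Recur a) (n : ℕ) (hn : 4 ≤ n) (h4 : ¬ 4 ∣ n) : a n < 0 := by
  have hF := (chk_spec a h 700 tab chk_tab).2
  rcases Nat.lt_or_ge 700 n with h1 | h1
  · have h2 := big a h n h1 (fun d h3 h4 => (hF d (by omega) (by omega)).2.2.2.2 h3 h4)
      (fun d h3 _ => bound h d h3)
    have hc : cst n = -1 := if_neg h4
    rw [hc, abs_le] at h2
    have h7 : (0 : ℝ) < 2 ^ n := by positivity
    have hn0 : (0 : ℝ) < n := by
      have : 0 < n := by omega
      exact_mod_cast this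
    have h9 : (a n : ℝ) < 0 := by
      by_contra hc
      rw [not_lt] at hc
      have := mul_nonneg hn0.le hc
      linarith [h2.2]
    exact_mod_cast h9
  · obtain ⟨-, h2, h3, -⟩ := hF n (by omega) h1
    have hs : sg n = false := by
      unfold sg
      rw [Bool.or_eq_false_iff]
      constructor
      · rw [← Bool.not_eq_true]
        intro h5
        have := Nat.le_of_ble_eq_true h5
        omega
      · rw [← Bool.not_eq_true, beq_iff]
        omega
    have h5 := h2 hs
    have h6 := h3 hn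
    omega

/-- **MP_f3871b, Q1.** The power product expansion `∑ p(m) x^m = ∏_{k ≥ 1} (1 + n_k x^k)` exists,
and its coefficients satisfy `n(8k+2) < 0`, `n(8k+4) < 0`, `n(8k+6) < 0` and `n(8k) > 0` for every
`k ≥ 1`. -/
theorem result : (∃ N : ℕ → ℤ, IsExpansion N) ∧
    ∀ N : ℕ → ℤ, IsExpansion N → ∀ k : ℕ, 1 ≤ k →
      N (8 * k + 2) < 0 ∧ N (8 * k + 4) < 0 ∧ N (8 * k + 6) < 0 ∧ 0 < N (8 * k) := by
  refine ⟨⟨Nx, isExpansion_Nx⟩, fun N hN k hk => ?_⟩
  have h : Recur (fun n => N (2 * n)) := fun n hn => hN.even_rec n hn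
  have h1 := sign_neg h (4 * k + 1) (by omega) (by omega)
  have h2 := sign_neg h (4 * k + 2) (by omega) (by omega)
  have h3 := sign_neg h (4 * k + 3) (by omega) (by omega)
  have h4 := sign_pos h (4 * k) (by omega) (by omega)
  have e1 : 2 * (4 * k + 1) = 8 * k + 2 := by ring
  have e2 : 2 * (4 * k + 2) = 8 * k + 4 := by ring
  have e3 : 2 * (4 * k + 3) = 8 * k + 6 := by ring
  have e4 : 2 * (4 * k) = 8 * k := by ring
  simp only [e1, e2, e3, e4] at h1 h2 h3 h4
  exact ⟨h1, h2, h3, h4⟩

end Pool.Agent.Results.MP_f3871b_nt.FullAnswer
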